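import Mathlib

/-!
# Definitions for the proof of the symmetric Mahler conjecture (helper904)

`ν m` (`m : Fin N`) are the facet normals of the symmetric polytope
`Pol ν = {x | ∀ m, |⟨ν m, x⟩| ≤ 1}`.
-/

open MeasureTheory
open scoped BigOperators Real ENNReal ComplexConjugate

noncomputable section

namespace H904M

/-- `⟨ν m, z⟩` for complex `z`. -/
def pr {n N : ℕ} (ν : Fin N → Fin n → ℝ) (m : Fin N) (z : Fin n → ℂ) : ℂ :=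
  ∑ j, (ν m j : ℂ) * z j

/-- the matrix with rows `ν (σ i)`. -/
def Bm {n N : ℕ} (ν : Fin N → Fin n → ℝ) (σ : Fin n → Fin N) : Matrix (Fin n) (Fin n) ℝ :=
  Matrix.of fun i j => ν (σ i) j

/-- the determinant of the vectors `ν (σ i)`. -/
def dt {n N : ℕ} (ν : Fin N → Fin n → ℝ) (σ : Fin n → Fin N) : ℝ := (Bm ν σ).det

/-- coefficients of `ν m` in the basis `ν (σ i)` (if `dt ν σ ≠ 0`). -/
def ac {n N : ℕ} (ν : Fin N → Fin n → ℝ) (σ : Fin n → Fin N) (m : Fin N) (i : Fin n) : ℝ :=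
  Matrix.vecMul (ν m) (Bm ν σ)⁻¹ i

/-- indices not in the range of `σ`. -/
def rest {a N : ℕ} (σ : Fin a → Fin N) : Finset (Fin N) :=
  Finset.univ.filter fun m => ∀ i, σ i ≠ m

/-- the symmetric polytope. -/
def Pol {n N : ℕ} (ν : Fin N → Fin n → ℝ) : Set (Fin n → ℝ) :=
  {x | ∀ m, |ν m ⬝ᵥ x| ≤ 1}

/-- the polar of a set. -/
def plr {n : ℕ} (K : Set (Fin n → ℝ)) : Set (Fin n → ℝ) := {y | ∀ x ∈ K, x ⬝ᵥ y ≤ 1}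

/-- radial cut-off profile: `k = 1` on `(-∞, r0²]`, `k = 0` on `[r1², ∞)`, `C¹`, antitone. -/
structure Prof where
  k : ℝ → ℝ
  k' : ℝ → ℝ
  r0 : ℝ
  r1 : ℝ
  r0_pos : 0 < r0
  r01 : r0 < r1
  r1_lt : r1 < 1
  hk : ∀ t, HasDerivAt k (k' t) t
  hk'c : Continuous k'
  hk'0 : ∀ t, k' t ≤ 0
  k_nonneg : ∀ t, 0 ≤ k t
  k_le : ∀ t, k t ≤ 1
  k_one : ∀ t, t ≤ r0 ^ 2 → k t = 1
  k_zero : ∀ t, r1 ^ 2 ≤ t → k t = 0

/-- the radial weight on the disc. -/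
def Prof.w0 (P : Prof) (ζ : ℂ) : ℝ := -2 * P.k' (‖ζ‖ ^ 2)

/-- A family (parameter `s ∈ S`) of injective holomorphic maps `F s` of the disc `ball 0 R`,
`R > r1`, with the cut-off function `κ s (F s ζ) = k (‖ζ‖²)`, `0` outside the image. -/
structure PFam (P : Prof) (S : Set ℝ) where
  F : ℝ → ℂ → ℂ
  Fz : ℝ → ℂ → ℂ
  Fs : ℝ → ℂ → ℂ
  R : ℝ
  hR : P.r1 < R
  κ : ℝ → ℂ → ℝ
  hFz : ∀ s ∈ S, ∀ ζ : ℂ, ‖ζ‖ < R → HasDerivAt (F s) (Fz s ζ) ζ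
  hFz0 : ∀ s ∈ S, ∀ ζ : ℂ, ‖ζ‖ < R → Fz s ζ ≠ 0
  hFs : ∀ s ∈ S, ∀ ζ : ℂ, ‖ζ‖ < R → HasDerivAt (fun t => F t ζ) (Fs s ζ) s
  inj : ∀ s ∈ S, Set.InjOn (F s) (Metric.ball 0 R)
  cont_F : ContinuousOn (Function.uncurry F) (S ×ˢ Metric.ball 0 R)
  cont_Fz : ContinuousOn (Function.uncurry Fz) (S ×ˢ Metric.ball 0 R)
  cont_Fs : ContinuousOn (Function.uncurry Fs) (S ×ˢ Metric.ball 0 R)
  κdiff : ContDiffOn ℝ 1 (Function.uncurry κ) (S ×ˢ Set.univ)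
  κ_eq : ∀ s ∈ S, ∀ ζ : ℂ, ‖ζ‖ < R → κ s (F s ζ) = P.k (‖ζ‖ ^ 2)
  κ_zero : ∀ s ∈ S, ∀ w : ℂ, w ∉ F s '' Metric.ball 0 R → κ s w = 0

namespace PFam

variable {P : Prof} {S : Set ℝ}

open Classical in
/-- the inverse map. -/
def inv (G : PFam P S) (s : ℝ) (w : ℂ) : ℂ :=
  if w ∈ G.F s '' Metric.ball 0 G.R then Function.invFunOn (G.F s) (Metric.ball 0 G.R) w else 0

open Classical in
/-- the push-forward density. -/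
def om (G : PFam P S) (s : ℝ) (w : ℂ) : ℝ :=
  if w ∈ G.F s '' Metric.ball 0 G.R then P.w0 (G.inv s w) / ‖G.Fz s (G.inv s w)‖ ^ 2 else 0

/-- `ζ F'(ζ)`. -/
def Xi (G : PFam P S) (s : ℝ) (w : ℂ) : ℂ := G.inv s w * G.Fz s (G.inv s w)

/-- the velocity. -/
def Vel (G : PFam P S) (s : ℝ) (w : ℂ) : ℂ := G.Fs s (G.inv s w)

end PFam

section functionals

variable {n N : ℕ} {P : Prof} {S : Set ℝ}

/-- the `σ`-integral in the coordinates `z`. -/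
def Cint (ν : Fin N → Fin n → ℝ) (G : Fin N → PFam P S) (σ : Fin n → Fin N) (s : ℝ) : ℝ :=
  ∫ z : Fin n → ℂ, (∏ i, (G (σ i)).om s (pr ν (σ i) z)) * ∏ m ∈ rest σ, (G m).κ s (pr ν m z)

/-- the `σ`-integral in the chart `σ`. -/
def Chart (ν : Fin N → Fin n → ℝ) (G : Fin N → PFam P S) (σ : Fin n → Fin N) (s : ℝ) : ℝ :=
  ∫ ζ : Fin n → ℂ, (∏ i, P.w0 (ζ i)) *
    ∏ m ∈ rest σ, (G m).κ s (∑ i, (ac ν σ m i : ℂ) * (G (σ i)).F s (ζ i))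

/-- the functional. -/
def Cfun (ν : Fin N → Fin n → ℝ) (G : Fin N → PFam P S) (s : ℝ) : ℝ :=
  (1 / (n.factorial : ℝ)) * ∑ σ : Fin n → Fin N, (dt ν σ) ^ 2 * Cint ν G σ s

/-- the integrand of the derivative (contribution of the pair `(σ, m)`). -/
def Dint (ν : Fin N → Fin n → ℝ) (G : Fin N → PFam P S) (σ : Fin n → Fin N) (m : Fin N)
    (s : ℝ) (z : Fin n → ℂ) : ℝ :=
  (∏ i, (G (σ i)).om s (pr ν (σ i) z)) * (∏ l ∈ (rest σ).erase m, (G l).κ s (pr ν l z)) *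
    ((G m).om s (pr ν m z) * (conj ((G m).Xi s (pr ν m z)) *
      ((G m).Vel s (pr ν m z) - ∑ i, (ac ν σ m i : ℂ) * (G (σ i)).Vel s (pr ν (σ i) z))).re)

/-- the real functional at `s = 1` (with `|Im Xi|`). -/
def Rfun (ν : Fin N → Fin n → ℝ) (G : Fin N → PFam P S) (s : ℝ) : ℝ :=
  (1 / (n.factorial : ℝ)) * ∑ σ : Fin n → Fin N, (dt ν σ) ^ 2 *
    ∫ z : Fin n → ℂ, (∏ i, (G (σ i)).om s (pr ν (σ i) z) * |((G (σ i)).Xi s (pr ν (σ i) z)).im|) *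
      ∏ m ∈ rest σ, (G m).κ s (pr ν m z)

end functionals

/-! ### the planar map `f = ∑ ζ^(2j+1)/(2j+1)²` -/

/-- `f ζ = ∑_{k odd} ζ^k/k²`. -/
def ff (ζ : ℂ) : ℂ := ∑' j : ℕ, ζ ^ (2 * j + 1) / ((2 * j + 1 : ℕ) : ℂ) ^ 2

/-- `f'`. -/
def ff1 (ζ : ℂ) : ℂ := ∑' j : ℕ, ζ ^ (2 * j) / ((2 * j + 1 : ℕ) : ℂ)

/-- `T ζ = artanh ζ = ζ f'(ζ)`. -/
def TT (ζ : ℂ) : ℂ := (Complex.log (1 + ζ) - Complex.log (1 - ζ)) / 2

end H904M
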